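import Pool.Agent.J4H28.SB.Avo

/-! # Good graphs are likely -/

set_option autoImplicit false

namespace Pool.Agent.J4H28.SB

open Finset Pool.Agent.J4H23.SB

theorem markov {m : ℕ} {q : Fin m × Fin m → ℝ} {l : ℝ} (h0 : 0 ≤ l) (hq : ∀ e, l ≤ q e ∧ q e ≤ 1)
    (c : Finset (Fin m × Fin m) → ℕ) (P : Finset (Fin m × Fin m) → Prop) (T : ℝ) (hT : 0 < T)
    (hP : ∀ X, P X → T ≤ c X) (E : ℝ) (hE : ∑ X, wt q X * (c X : ℝ) ≤ E) : pr q P ≤ E / T := by
  classical
  rw [le_div_iff₀ hT, pr_eq, Finset.sum_mul]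
  refine (Finset.sum_le_sum fun X _ => ?_).trans hE
  have h1 := wt_nonneg h0 hq X
  by_cases h : P X
  · rw [if_pos h]
    exact mul_le_mul_of_nonneg_left (hP X h) h1
  · rw [if_neg h, zero_mul]
    exact mul_nonneg h1 (Nat.cast_nonneg _)

theorem pow_exp {l : ℝ} (h1 : l ≤ 1) (a : ℕ) : (1 - l) ^ a ≤ Real.exp (-(l * a)) := by
  have h2 : 1 - l ≤ Real.exp (-l) := by
    have := Real.add_one_le_exp (-l)
    linarith
  calc (1 - l) ^ a ≤ Real.exp (-l) ^ a := pow_le_pow_left₀ (by linarith) h2 _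
    _ = _ := by
      rw [← Real.exp_nat_mul]
      congr 1
      ring

theorem exp_half {x : ℝ} (h0 : 0 ≤ x) (h1 : x ≤ 1) : Real.exp (-x) ≤ 1 - x / 2 := by
  have h2 : Real.exp (-x) * Real.exp x = 1 := by rw [← Real.exp_add, neg_add_cancel, Real.exp_zero]
  have h3 : 1 + x ≤ Real.exp x := by
    have := Real.add_one_le_exp x
    linarith
  have h4 : 0 < Real.exp (-x) := Real.exp_pos _
  -- `exp (-x) ≤ 1 / (1 + x) ≤ 1 - x / 2`
  have h5 : Real.exp (-x) * (1 + x) ≤ 1 := by nlinarith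
  have h6 : (1 : ℝ) ≤ (1 - x / 2) * (1 + x) := by nlinarith
  have h7 : 0 < 1 + x := by linarith
  exact le_of_mul_le_mul_right (h5.trans h6) h7

/-- small sets -/
theorem caseA {k m a : ℕ} (hm : 3 ≤ m) (ha : 1 ≤ a) {l : ℝ} (h0 : 0 ≤ l) (h1 : l ≤ 1)
    (hl : l * m = (4 * (k + 7) : ℕ) * Real.log m) (hla : l * a ≤ 1) :
    (m.choose a : ℝ) * (1 + (1 - l) ^ a) ^ m / (2 ^ m / (2 * m + 2) ^ a) ≤
      1 / (m : ℝ) ^ (k + 4) := by
  have hm0 : (0 : ℝ) < m := by positivity
  have hm3 : (3 : ℝ) ≤ m := by exact_mod_cast hm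
  have e1 : (m.choose a : ℝ) ≤ (m : ℝ) ^ a := by exact_mod_cast Nat.choose_le_pow m a
  have e2 : (2 * (m : ℝ) + 2) ≤ (m : ℝ) ^ 2 := by nlinarith
  have e3 : (1 + (1 - l) ^ a) / 2 ≤ Real.exp (-(l * a / 4)) := by
    have h2 := pow_exp h1 a
    have h3 := exp_half (x := l * a) (by positivity) hla
    have h4 := Real.add_one_le_exp (-(l * a / 4))
    linarith
  have e0 : 0 ≤ (1 + (1 - l) ^ a) / 2 := by
    have : 0 ≤ (1 - l) ^ a := pow_nonneg (by linarith) _
    positivity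
  have e4 : (m.choose a : ℝ) * (1 + (1 - l) ^ a) ^ m / (2 ^ m / (2 * m + 2) ^ a) =
      (m.choose a : ℝ) * (2 * m + 2) ^ a * ((1 + (1 - l) ^ a) / 2) ^ m := by
    rw [div_pow]
    field_simp
  rw [e4]
  have e5 : Real.exp (-(l * a / 4)) ^ m = (1 / (m : ℝ) ^ (k + 7)) ^ a := by
    have h2 : Real.exp (-((k + 7 : ℕ) * Real.log m)) = 1 / (m : ℝ) ^ (k + 7) := by
      rw [Real.exp_neg, ← Real.log_pow, Real.exp_log (by positivity), one_div]
    rw [← h2, ← Real.exp_nat_mul, ← Real.exp_nat_mul]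
    congr 1
    have h3 : l * m / 4 = (k + 7 : ℕ) * Real.log m := by
      rw [hl]
      push_cast
      ring
    rw [← h3]
    ring
  calc (m.choose a : ℝ) * (2 * m + 2) ^ a * ((1 + (1 - l) ^ a) / 2) ^ m
      ≤ (m : ℝ) ^ a * ((m : ℝ) ^ 2) ^ a * (1 / (m : ℝ) ^ (k + 7)) ^ a := by
        rw [← e5]
        refine mul_le_mul (mul_le_mul e1 (pow_le_pow_left₀ (by positivity) e2 _) (by positivity)
          (by positivity)) (pow_le_pow_left₀ e0 e3 _) (by positivity) (by positivity)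
    _ = (1 / (m : ℝ) ^ (k + 4)) ^ a := by
        rw [← mul_pow, ← mul_pow]
        congr 1
        have h2 : (m : ℝ) ^ (k + 7) = (m : ℝ) ^ 3 * (m : ℝ) ^ (k + 4) := by ring
        rw [h2]
        field_simp
    _ ≤ (1 / (m : ℝ) ^ (k + 4)) ^ 1 := by
        refine pow_le_pow_of_le_one (by positivity) ?_ ha
        rw [div_le_one (by positivity)]
        exact one_le_pow₀ (by linarith)
    _ = _ := pow_one _

/-- large sets -/
theorem caseB (hBIN : S_BIN) {k m a : ℕ} (hm : 3 ≤ m) (h64 : 64 * a ≤ m) {l : ℝ}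
    (h1 : l ≤ 1) (hla : 1 ≤ l * a) (hbig : 64 * (m : ℝ) ^ (8 * (k + 4)) ≤ 2 ^ m) :
    (m.choose a : ℝ) * (1 + (1 - l) ^ a) ^ m / 2 ^ (3 * m / 4) ≤ 1 / (m : ℝ) ^ (k + 4) := by
  have hm0 : (0 : ℝ) < m := by positivity
  have e0 : 0 ≤ (1 - l) ^ a := pow_nonneg (by linarith) _
  have e1 : 1 + (1 - l) ^ a ≤ 1.37 := by
    have h2 := pow_exp h1 a
    have h3 : Real.exp (-(l * a)) ≤ Real.exp (-1) := Real.exp_le_exp.2 (by linarith)
    have h4 := Real.exp_neg_one_lt_d9
    norm_num at h4 ⊢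
    linarith
  have e2 : ((m.choose a : ℕ) : ℝ) ^ 8 ≤ 2 ^ m := by
    have h2 : m.choose a ≤ ((univ : Finset (Finset (Fin m))).filter
        (fun A => 64 * A.card ≤ m)).card := by
      have h := Finset.card_powersetCard a (univ : Finset (Fin m))
      rw [Finset.card_univ, Fintype.card_fin] at h
      rw [← h]
      refine Finset.card_le_card fun A hA => ?_
      rw [Finset.mem_powersetCard] at hA
      rw [Finset.mem_filter]
      exact ⟨Finset.mem_univ _, by rw [hA.2]; exact h64⟩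
    have h3 := (Nat.pow_le_pow_left h2 8).trans (hBIN m)
    exact_mod_cast h3
  rw [div_le_div_iff₀ (by positivity) (by positivity), one_mul]
  refine le_of_pow_le_pow_left₀ (n := 8) (by norm_num) (by positivity) ?_
  have e3 : (1 + (1 - l) ^ a) ^ 8 ≤ 13 := by
    calc (1 + (1 - l) ^ a) ^ 8 ≤ (1.37 : ℝ) ^ 8 := pow_le_pow_left₀ (by linarith) e1 8
      _ ≤ 13 := by norm_num
  have e4 : (2 : ℝ) ^ (6 * m) ≤ 64 * (2 ^ (3 * m / 4)) ^ 8 := by
    rw [← pow_mul]
    have h2 : (64 : ℝ) = 2 ^ 6 := by norm_num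
    rw [h2, ← pow_add]
    refine pow_le_pow_right₀ (by norm_num) ?_
    omega
  calc ((m.choose a : ℝ) * (1 + (1 - l) ^ a) ^ m * (m : ℝ) ^ (k + 4)) ^ 8
      = ((m.choose a : ℕ) : ℝ) ^ 8 * ((1 + (1 - l) ^ a) ^ 8) ^ m * (m : ℝ) ^ (8 * (k + 4)) := by
        rw [mul_pow, mul_pow, ← pow_mul, ← pow_mul, ← pow_mul, mul_comm m 8, mul_comm (k + 4) 8]
    _ ≤ 2 ^ m * 13 ^ m * (m : ℝ) ^ (8 * (k + 4)) := by
        refine mul_le_mul_of_nonneg_right (mul_le_mul e2 (pow_le_pow_left₀ (by positivity) e3 _)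
          (by positivity) (by positivity)) (by positivity)
    _ ≤ 2 ^ m * 13 ^ m * (2 ^ m / 64) := by
        refine mul_le_mul_of_nonneg_left ?_ (by positivity)
        rw [le_div_iff₀ (by norm_num)]
        linarith
    _ ≤ 2 ^ (6 * m) / 64 := by
        rw [mul_div_assoc']
        refine div_le_div_of_nonneg_right ?_ (by norm_num)
        have h2 : (2 : ℝ) ^ (6 * m) = 2 ^ m * 16 ^ m * 2 ^ m := by
          rw [← mul_pow, ← mul_pow, pow_mul]
          norm_num
        rw [h2]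
        refine mul_le_mul_of_nonneg_right (mul_le_mul_of_nonneg_left
          (pow_le_pow_left₀ (by norm_num) (by norm_num) _) (by positivity)) (by positivity)
    _ ≤ (2 ^ (3 * m / 4)) ^ 8 := by
        rw [div_le_iff₀ (by norm_num)]
        linarith

theorem t_PRB (hBIN : S_BIN) : S_PRB := by
  intro k
  classical
  -- the eventual conditions
  have ev1 : ∀ᶠ m : ℕ in Filter.atTop, 64 * (m : ℝ) ^ (8 * (k + 4)) ≤ 2 ^ m := by
    have h1 := tendsto_pow_const_div_const_pow_of_one_lt (8 * (k + 4)) (by norm_num : (1 : ℝ) < 2)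
    filter_upwards [h1.eventually_le_const (by norm_num : (0 : ℝ) < 1 / 64)] with m hm
    rw [div_le_iff₀ (by positivity)] at hm
    linarith
  have ev2 : ∀ᶠ m : ℕ in Filter.atTop, (12288 : ℝ) ≤ (4 * (k + 7) : ℕ) * Real.log m := by
    have h1 : Filter.Tendsto (fun m : ℕ => Real.log (m : ℝ)) Filter.atTop Filter.atTop :=
      Real.tendsto_log_atTop.comp tendsto_natCast_atTop_atTop
    filter_upwards [h1.eventually_ge_atTop 12288, h1.eventually_ge_atTop 0] with m hm hm'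
    have h2 : (1 : ℝ) ≤ ((4 * (k + 7) : ℕ) : ℝ) := by
      exact_mod_cast (by omega : 1 ≤ 4 * (k + 7))
    nlinarith
  obtain ⟨m₀, hm₀⟩ := Filter.eventually_atTop.1
    (ev1.and (ev2.and (Filter.eventually_ge_atTop 3)))
  refine ⟨4 * (k + 7), m₀, fun m hm q hq => ?_⟩
  obtain ⟨hbig, hlog, hm3⟩ := hm₀ m hm
  have hm0 : (0 : ℝ) < m := by positivity
  have hm3' : (3 : ℝ) ≤ m := by exact_mod_cast hm3
  set l : ℝ := ((4 * (k + 7) : ℕ) : ℝ) * Real.log m / m with hl
  have h0 : 0 ≤ l := by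
    have : 0 ≤ Real.log m := Real.log_nonneg (by linarith)
    positivity
  have h1 : l ≤ 1 := by
    have := hq (⟨0, by omega⟩, ⟨0, by omega⟩)
    exact this.1.trans this.2
  have hlm : l * m = ((4 * (k + 7) : ℕ) : ℝ) * Real.log m := by
    rw [hl]
    field_simp
  -- the bad events
  let bL : ℕ → Finset (Fin m × Fin m) → Prop := fun a X => 64 * a ≤ m ∧
    ¬ ((2 * m + 2) ^ a * cL X a ≤ 2 ^ m + (2 * m + 2) ^ a * 2 ^ (3 * m / 4))
  let bR : ℕ → Finset (Fin m × Fin m) → Prop := fun a X => 64 * a ≤ m ∧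
    ¬ ((2 * m + 2) ^ a * cR X a ≤ 2 ^ m + (2 * m + 2) ^ a * 2 ^ (3 * m / 4))
  let bB : Finset (Fin m × Fin m) → Prop := fun X =>
    ¬ ∀ p ∈ ip X, 64 * p.1.card ≤ m ∨ 64 * p.2.card ≤ m
  have key : ∀ (c : Finset (Fin m × Fin m) → ℕ) (a : ℕ), 1 ≤ a →
      (∑ X, wt q X * (c X : ℝ) ≤ (m.choose a : ℝ) * (1 + (1 - l) ^ a) ^ m) →
      pr q (fun X => 64 * a ≤ m ∧
        ¬ ((2 * m + 2) ^ a * c X ≤ 2 ^ m + (2 * m + 2) ^ a * 2 ^ (3 * m / 4))) ≤
        1 / (m : ℝ) ^ (k + 4) := by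
    intro c a ha hE
    by_cases h64 : 64 * a ≤ m
    swap
    · rw [pr_eq]
      rw [Finset.sum_eq_zero]
      · positivity
      · intro X _
        rw [if_neg]
        exact fun h => h64 h.1
    by_cases hla : l * a ≤ 1
    · refine (markov h0 hq c _ (2 ^ m / (2 * m + 2) ^ a) (by positivity) ?_ _ hE).trans
        (caseA hm3 ha h0 h1 hlm hla)
      rintro X ⟨-, hX⟩
      rw [not_le] at hX
      rw [div_le_iff₀ (by positivity)]
      have h2 : 2 ^ m ≤ (2 * m + 2) ^ a * c X := (Nat.le_add_right _ _).trans hX.le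
      have h3 : ((2 ^ m : ℕ) : ℝ) ≤ (((2 * m + 2) ^ a * c X : ℕ) : ℝ) := by exact_mod_cast h2
      push_cast at h3
      linarith
    · refine (markov h0 hq c _ (2 ^ (3 * m / 4)) (by positivity) ?_ _ hE).trans
        (caseB hBIN hm3 h64 h1 (not_le.1 hla).le hbig)
      rintro X ⟨-, hX⟩
      rw [not_le] at hX
      have h2 : (2 * m + 2) ^ a * 2 ^ (3 * m / 4) ≤ (2 * m + 2) ^ a * c X :=
        (Nat.le_add_left _ _).trans hX.le
      have h3 : 2 ^ (3 * m / 4) ≤ c X := Nat.le_of_mul_le_mul_left h2 (by positivity)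
      exact_mod_cast h3
  have hL : ∀ a ∈ Finset.Icc 1 m, pr q (bL a) ≤ 1 / (m : ℝ) ^ (k + 4) := fun a ha =>
    key (fun X => cL X a) a (Finset.mem_Icc.1 ha).1 (t_EXP m a q l h0 h1 hq).1
  have hR : ∀ a ∈ Finset.Icc 1 m, pr q (bR a) ≤ 1 / (m : ℝ) ^ (k + 4) := fun a ha =>
    key (fun X => cR X a) a (Finset.mem_Icc.1 ha).1 (t_EXP m a q l h0 h1 hq).2
  have hB : pr q bB ≤ 1 / (m : ℝ) ^ (k + 4) := by
    refine (t_BIG m q l h0 h1 hq).trans ?_
    have e1 : l * (m / 64 : ℝ) ^ 2 = (l * m) * m / 4096 := by ring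
    have e2 : 3 * (m : ℝ) ≤ l * (m / 64 : ℝ) ^ 2 := by
      rw [e1, hlm]
      rw [le_div_iff₀ (by norm_num)]
      nlinarith
    have e3 : Real.exp (- l * (m / 64 : ℝ) ^ 2) ≤ (1 / 8) ^ m := by
      have h2 : (8 : ℝ) ≤ Real.exp 3 := by
        have h3 : (2 : ℝ) ≤ Real.exp 1 := by
          have := Real.add_one_le_exp (1 : ℝ)
          linarith
        have h4 : Real.exp 3 = Real.exp 1 ^ 3 := by
          rw [← Real.exp_nat_mul]
          norm_num
        rw [h4]
        calc (8 : ℝ) = 2 ^ 3 := by norm_num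
          _ ≤ _ := pow_le_pow_left₀ (by norm_num) h3 3
      calc Real.exp (- l * (m / 64 : ℝ) ^ 2) ≤ Real.exp (-(m * 3)) :=
            Real.exp_le_exp.2 (by linarith)
        _ = (1 / Real.exp 3) ^ m := by
            rw [Real.exp_neg, Real.exp_nat_mul, one_div, inv_pow]
        _ ≤ (1 / 8) ^ m := by
            refine pow_le_pow_left₀ (by positivity) ?_ _
            exact one_div_le_one_div_of_le (by norm_num) h2
    have e4 : (m : ℝ) ^ (k + 4) ≤ 2 ^ m := by
      refine le_trans ?_ hbig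
      have h2 : (m : ℝ) ^ (k + 4) ≤ (m : ℝ) ^ (8 * (k + 4)) :=
        pow_le_pow_right₀ (by linarith) (by omega)
      have h3 : 0 ≤ (m : ℝ) ^ (8 * (k + 4)) := by positivity
      linarith
    calc 4 ^ m * Real.exp (- l * (m / 64 : ℝ) ^ 2) ≤ 4 ^ m * (1 / 8) ^ m :=
          mul_le_mul_of_nonneg_left e3 (by positivity)
      _ = 1 / 2 ^ m := by
          rw [← mul_pow, ← one_div_pow]
          norm_num
      _ ≤ _ := one_div_le_one_div_of_le (by positivity) e4
  -- the union bound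
  have hun : 1 ≤ pr q (fun X => Good X) + ∑ a ∈ Finset.Icc 1 m, (pr q (bL a) + pr q (bR a)) +
      pr q bB := by
    rw [← sum_wt q]
    simp only [pr_eq]
    simp only [← Finset.sum_add_distrib]
    rw [Finset.sum_comm, ← Finset.sum_add_distrib, ← Finset.sum_add_distrib]
    refine Finset.sum_le_sum fun X _ => ?_
    have hw := wt_nonneg h0 hq X
    have hnn : ∀ P : Prop, [Decidable P] → 0 ≤ (if P then wt q X else 0) := by
      intro P _
      split_ifs
      · exact hw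
      · exact le_rfl
    have hsum : 0 ≤ ∑ a ∈ Finset.Icc 1 m, ((if bL a X then wt q X else 0) +
        (if bR a X then wt q X else 0)) :=
      Finset.sum_nonneg fun a _ => add_nonneg (hnn _) (hnn _)
    by_cases hG : Good X
    · rw [if_pos hG]
      have := hnn (bB X)
      linarith
    · by_cases hBX : bB X
      · rw [if_pos hBX]
        have := hnn (Good X)
        linarith
      · have h3 : ∃ a ∈ Finset.Icc 1 m, bL a X ∨ bR a X := by
          by_contra hcon
          push Not at hcon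
          apply hG
          have hBX' : ∀ p ∈ ip X, 64 * p.1.card ≤ m ∨ 64 * p.2.card ≤ m := by
            by_contra h
            exact hBX h
          refine ⟨fun a ha h64 => ?_, fun a ha h64 => ?_, hBX'⟩
          · by_contra h
            exact (hcon a (Finset.mem_Icc.2 ⟨ha, by omega⟩)).1 ⟨h64, h⟩
          · by_contra h
            exact (hcon a (Finset.mem_Icc.2 ⟨ha, by omega⟩)).2 ⟨h64, h⟩
        obtain ⟨a, ha, h4⟩ := h3
        have h5 : wt q X ≤ ∑ a ∈ Finset.Icc 1 m, ((if bL a X then wt q X else 0) +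
            (if bR a X then wt q X else 0)) := by
          refine le_trans ?_ (Finset.single_le_sum (f := fun a => (if bL a X then wt q X else 0) +
            (if bR a X then wt q X else 0)) (fun a _ => add_nonneg (hnn _) (hnn _)) ha)
          rcases h4 with h4 | h4
          · change wt q X ≤ (if bL a X then wt q X else 0) + (if bR a X then wt q X else 0)
            rw [if_pos h4]
            have := hnn (bR a X)
            linarith
          · change wt q X ≤ (if bL a X then wt q X else 0) + (if bR a X then wt q X else 0)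
            rw [if_pos h4]
            have := hnn (bL a X)
            linarith
        have := hnn (Good X)
        have := hnn (bB X)
        linarith
  have hs : ∑ a ∈ Finset.Icc 1 m, (pr q (bL a) + pr q (bR a)) ≤
      m * (2 * (1 / (m : ℝ) ^ (k + 4))) := by
    refine (Finset.sum_le_sum fun a ha => (add_le_add (hL a ha) (hR a ha))).trans ?_
    rw [Finset.sum_const, Nat.card_Icc, nsmul_eq_mul]
    simp only [Nat.add_sub_cancel]
    exact le_of_eq (by ring)
  have hfin : m * (2 * (1 / (m : ℝ) ^ (k + 4))) + 1 / (m : ℝ) ^ (k + 4) ≤ 1 / (m : ℝ) ^ k := by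
    have h2 : (m : ℝ) ^ (k + 4) = (m : ℝ) ^ k * (m : ℝ) ^ 4 := pow_add _ _ _
    rw [h2]
    have h3 : (m : ℝ) * (2 * (1 / ((m : ℝ) ^ k * (m : ℝ) ^ 4))) + 1 / ((m : ℝ) ^ k * (m : ℝ) ^ 4) =
        1 / (m : ℝ) ^ k * ((2 * m + 1) / (m : ℝ) ^ 4) := by
      field_simp
    rw [h3]
    refine mul_le_of_le_one_right (by positivity) ?_
    rw [div_le_one (by positivity)]
    nlinarith [sq_nonneg ((m : ℝ) ^ 2 - 1), sq_nonneg (m : ℝ)]
  linarith

end Pool.Agent.J4H28.SB
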