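import Pool.Agent.J4H23.SB.Stm

/-! # The probability of no edge in a set; mean numbers of independent pairs -/

set_option autoImplicit false

namespace Pool.Agent.J4H28.SB

open Finset Pool.Agent.J4H23.SB

theorem sum_prod_ite {E : Type*} [Fintype E] [DecidableEq E] (f g : E → ℝ) :
    ∑ X : Finset E, ∏ e, (if e ∈ X then f e else g e) = ∏ e, (f e + g e) := by
  rw [Finset.prod_add, Finset.powerset_univ]
  refine Finset.sum_congr rfl fun X _ => ?_
  rw [Finset.prod_ite]
  congr 1
  · refine Finset.prod_congr ?_ fun _ _ => rfl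
    ext e
    simp
  · refine Finset.prod_congr ?_ fun _ _ => rfl
    ext e
    simp

theorem pr_eq {m : ℕ} (q : Fin m × Fin m → ℝ) (P : Finset (Fin m × Fin m) → Prop)
    [DecidablePred P] : pr q P = ∑ X, if P X then wt q X else 0 := by
  unfold pr
  rw [Finset.sum_filter]
  exact Finset.sum_congr rfl fun X _ => by congr

theorem t_AVO : S_AVO := by
  intro m q S
  classical
  rw [pr_eq]
  have h1 : ∀ X : Finset (Fin m × Fin m), (if Disjoint X S then wt q X else 0) =
      ∏ e, (if e ∈ X then (if e ∈ S then 0 else q e) else 1 - q e) := by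
    intro X
    split_ifs with h
    · refine Finset.prod_congr rfl fun e _ => ?_
      by_cases he : e ∈ X
      · rw [if_pos he, if_pos he, if_neg (Finset.disjoint_left.1 h he)]
      · rw [if_neg he, if_neg he]
    · symm
      rw [Finset.not_disjoint_iff] at h
      obtain ⟨e, h1, h2⟩ := h
      refine Finset.prod_eq_zero (Finset.mem_univ e) ?_
      rw [if_pos h1, if_pos h2]
  rw [Finset.sum_congr rfl fun X _ => h1 X, sum_prod_ite]
  have h2 : ∀ e, (if e ∈ S then 0 else q e) + (1 - q e) = if e ∈ S then 1 - q e else 1 := by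
    intro e
    split_ifs <;> ring
  rw [Finset.prod_congr rfl fun e _ => h2 e, Finset.prod_ite_mem, Finset.univ_inter]

variable {m : ℕ} {q : Fin m × Fin m → ℝ} {l : ℝ}

theorem wt_nonneg (h0 : 0 ≤ l) (hq : ∀ e, l ≤ q e ∧ q e ≤ 1) (X : Finset (Fin m × Fin m)) :
    0 ≤ wt q X := by
  refine Finset.prod_nonneg fun e _ => ?_
  split_ifs
  · exact h0.trans (hq e).1
  · linarith [(hq e).2]

theorem sum_wt (q : Fin m × Fin m → ℝ) : ∑ X, wt q X = 1 := by
  unfold wt
  rw [sum_prod_ite]
  exact Finset.prod_eq_one fun e _ => by ring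

theorem pr_avoid (h0 : 0 ≤ l) (h1 : l ≤ 1) (hq : ∀ e, l ≤ q e ∧ q e ≤ 1)
    (S : Finset (Fin m × Fin m)) : pr q (fun X => Disjoint X S) ≤ (1 - l) ^ S.card := by
  rw [t_AVO]
  refine (Finset.prod_le_prod (fun e _ => ?_) fun e _ => ?_).trans (Finset.prod_const _).le
  · linarith [(hq e).2]
  · linarith [(hq e).1]

theorem mem_ip {X : Finset (Fin m × Fin m)} {p : Finset (Fin m) × Finset (Fin m)} :
    p ∈ ip X ↔ Disjoint X (p.1 ×ˢ p.2) := by
  unfold ip
  rw [Finset.mem_filter, Finset.disjoint_right]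
  constructor
  · rintro ⟨-, h⟩ ⟨u, v⟩ he
    rw [Finset.mem_product] at he
    exact h u he.1 v he.2
  · intro h
    exact ⟨Finset.mem_univ _, fun u hu v hv => h (Finset.mem_product.2 ⟨hu, hv⟩)⟩

/-- the mean number of independent pairs with a property -/
theorem mean_ip (h0 : 0 ≤ l) (h1 : l ≤ 1) (hq : ∀ e, l ≤ q e ∧ q e ≤ 1)
    (P : Finset (Fin m) × Finset (Fin m) → Prop) [DecidablePred P] :
    ∑ X, wt q X * (((ip X).filter P).card : ℝ) ≤
      ∑ p ∈ (univ : Finset (Finset (Fin m) × Finset (Fin m))).filter P,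
        (1 - l) ^ (p.1.card * p.2.card) := by
  classical
  have e1 : ∀ X : Finset (Fin m × Fin m), wt q X * (((ip X).filter P).card : ℝ) =
      ∑ p ∈ (univ : Finset (Finset (Fin m) × Finset (Fin m))).filter P,
        if Disjoint X (p.1 ×ˢ p.2) then wt q X else 0 := by
    intro X
    rw [← Finset.sum_filter, Finset.sum_const, nsmul_eq_mul, mul_comm]
    congr 2
    congr 1
    ext p
    rw [Finset.mem_filter, mem_ip, Finset.mem_filter, Finset.mem_filter]
    exact ⟨fun h => ⟨⟨Finset.mem_univ _, h.2⟩, h.1⟩, fun h => ⟨h.2, h.1.2⟩⟩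
  rw [Finset.sum_congr rfl fun X _ => e1 X, Finset.sum_comm]
  refine Finset.sum_le_sum fun p _ => ?_
  rw [← pr_eq q fun X => Disjoint X (p.1 ×ˢ p.2)]
  refine (pr_avoid h0 h1 hq _).trans ?_
  rw [Finset.card_product]

theorem sum_pow_card' (x : ℝ) : ∑ B : Finset (Fin m), x ^ B.card = (1 + x) ^ m := by
  have h1 : ∀ B : Finset (Fin m), x ^ B.card = ∏ e, (if e ∈ B then x else 1) := by
    intro B
    rw [Finset.prod_ite_mem, Finset.univ_inter, Finset.prod_const]
  rw [Finset.sum_congr rfl fun B _ => h1 B, sum_prod_ite, Finset.prod_const, Finset.card_univ,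
    Fintype.card_fin, add_comm]

theorem t_EXP : S_EXP := by
  intro m a q l h0 h1 hq
  classical
  have hc : ((univ : Finset (Finset (Fin m))).filter fun A => A.card = a).card = m.choose a := by
    have h := Finset.card_powersetCard a (univ : Finset (Fin m))
    rw [Finset.card_univ, Fintype.card_fin] at h
    rw [← h]
    congr 1
    ext A
    simp [Finset.mem_powersetCard]
  constructor
  · refine (mean_ip h0 h1 hq fun p => p.1.card = a).trans ?_
    have e1 : ((univ : Finset (Finset (Fin m) × Finset (Fin m))).filter fun p => p.1.card = a) =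
        ((univ : Finset (Finset (Fin m))).filter fun A => A.card = a) ×ˢ univ := by
      ext p
      simp
    rw [e1, Finset.sum_product]
    have e2 : ∀ A ∈ (univ : Finset (Finset (Fin m))).filter fun A => A.card = a,
        ∑ B : Finset (Fin m), (1 - l) ^ (A.card * B.card) = (1 + (1 - l) ^ a) ^ m := by
      intro A hA
      rw [(Finset.mem_filter.1 hA).2, ← sum_pow_card']
      exact Finset.sum_congr rfl fun B _ => pow_mul _ _ _
    rw [Finset.sum_congr rfl e2, Finset.sum_const, hc, nsmul_eq_mul]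
  · refine (mean_ip h0 h1 hq fun p => p.2.card = a).trans ?_
    have e1 : ((univ : Finset (Finset (Fin m) × Finset (Fin m))).filter fun p => p.2.card = a) =
        univ ×ˢ ((univ : Finset (Finset (Fin m))).filter fun A => A.card = a) := by
      ext p
      simp
    rw [e1, Finset.sum_product_right]
    have e2 : ∀ A ∈ (univ : Finset (Finset (Fin m))).filter fun A => A.card = a,
        ∑ B : Finset (Fin m), (1 - l) ^ (B.card * A.card) = (1 + (1 - l) ^ a) ^ m := by
      intro A hA
      rw [(Finset.mem_filter.1 hA).2, ← sum_pow_card']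
      exact Finset.sum_congr rfl fun B _ => by rw [mul_comm, pow_mul]
    rw [Finset.sum_congr rfl e2, Finset.sum_const, hc, nsmul_eq_mul]

theorem t_BIG : S_BIG := by
  intro m q l h0 h1 hq
  classical
  rw [pr_eq]
  let P : Finset (Fin m) × Finset (Fin m) → Prop := fun p => ¬ (64 * p.1.card ≤ m ∨ 64 * p.2.card ≤ m)
  have e1 : ∑ X, (if ¬ ∀ p ∈ ip X, 64 * p.1.card ≤ m ∨ 64 * p.2.card ≤ m then wt q X else 0) ≤
      ∑ X, wt q X * (((ip X).filter P).card : ℝ) := by
    refine Finset.sum_le_sum fun X _ => ?_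
    by_cases h : ¬ ∀ p ∈ ip X, 64 * p.1.card ≤ m ∨ 64 * p.2.card ≤ m
    · rw [if_pos h]
      push Not at h
      obtain ⟨p, hp, h2, h3⟩ := h
      have h4 : 1 ≤ ((ip X).filter P).card := by
        rw [Nat.one_le_iff_ne_zero, Finset.card_ne_zero]
        refine ⟨p, Finset.mem_filter.2 ⟨hp, ?_⟩⟩
        change ¬ (64 * p.1.card ≤ m ∨ 64 * p.2.card ≤ m)
        omega
      have h5 : (1 : ℝ) ≤ (((ip X).filter P).card : ℝ) := by exact_mod_cast h4
      have := wt_nonneg h0 hq X
      nlinarith
    · rw [if_neg h]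
      exact mul_nonneg (wt_nonneg h0 hq X) (Nat.cast_nonneg _)
  refine e1.trans ((mean_ip h0 h1 hq P).trans ?_)
  have e2 : ∀ p ∈ (univ : Finset (Finset (Fin m) × Finset (Fin m))).filter P,
      (1 - l) ^ (p.1.card * p.2.card) ≤ Real.exp (- l * (m / 64 : ℝ) ^ 2) := by
    intro p hp
    have hp : ¬ (64 * p.1.card ≤ m ∨ 64 * p.2.card ≤ m) := (Finset.mem_filter.1 hp).2
    rw [not_or, not_le, not_le] at hp
    have ha : (m : ℝ) / 64 ≤ p.1.card := by
      have : (m : ℝ) < 64 * p.1.card := by exact_mod_cast hp.1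
      linarith
    have hb : (m : ℝ) / 64 ≤ p.2.card := by
      have : (m : ℝ) < 64 * p.2.card := by exact_mod_cast hp.2
      linarith
    have h2 : 1 - l ≤ Real.exp (-l) := by
      have := Real.add_one_le_exp (-l)
      linarith
    calc (1 - l) ^ (p.1.card * p.2.card) ≤ Real.exp (-l) ^ (p.1.card * p.2.card) :=
          pow_le_pow_left₀ (by linarith) h2 _
      _ = Real.exp (-l * ((p.1.card : ℝ) * p.2.card)) := by
          rw [← Real.exp_nat_mul]
          congr 1
          push_cast
          ring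
      _ ≤ _ := by
          apply Real.exp_le_exp.2
          have h3 : (m / 64 : ℝ) ^ 2 ≤ (p.1.card : ℝ) * p.2.card := by
            rw [sq]
            exact mul_le_mul ha hb (by positivity) (by positivity)
          nlinarith
  refine (Finset.sum_le_sum e2).trans ?_
  rw [Finset.sum_const, nsmul_eq_mul]
  refine mul_le_mul_of_nonneg_right ?_ (Real.exp_pos _).le
  have h3 : ((univ : Finset (Finset (Fin m) × Finset (Fin m))).filter P).card ≤ 4 ^ m := by
    refine (Finset.card_filter_le _ _).trans ?_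
    rw [Finset.card_univ, Fintype.card_prod, Fintype.card_finset, Fintype.card_fin, ← mul_pow]
    norm_num
  exact_mod_cast h3

end Pool.Agent.J4H28.SB
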